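import Pool.Agent.LW.AAC

/-! For almost all polynomials of degree at most `d` in two variables with integer coefficients all
integer zeros are bounded by a power of the height; for `d ≥ 5` this holds even for almost all of
those that have an integer zero. -/

set_option autoImplicit false

namespace Pool.Agent.Results.MP_2d259b_nt.AlmostAllCurves

open MvPolynomial

/-- the largest absolute value of a coefficient of `f` -/
def height (f : MvPolynomial (Fin 2) ℤ) : ℕ := f.support.sup fun m => (f.coeff m).natAbs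

/-- the polynomials of degree at most `d` and height at most `H` -/
def box (d H : ℕ) : Set (MvPolynomial (Fin 2) ℤ) := {f | f.totalDegree ≤ d ∧ height f ≤ H}

/-- all integer zeros of `f` are bounded by `C * (height f) ^ k` -/
def Bounded (k C : ℕ) (f : MvPolynomial (Fin 2) ℤ) : Prop :=
  ∀ x y : ℤ, eval ![x, y] f = 0 → |x| ≤ C * (height f : ℤ) ^ k ∧ |y| ≤ C * (height f : ℤ) ^ k

lemma height_le_iff (f : MvPolynomial (Fin 2) ℤ) (H : ℕ) :
    height f ≤ H ↔ ∀ m, |f.coeff m| ≤ (H : ℤ) := by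
  unfold height
  rw [Finset.sup_le_iff]
  constructor
  · intro h m
    by_cases hm : m ∈ f.support
    · have h1 := h m hm
      rw [Int.abs_eq_natAbs]
      exact_mod_cast h1
    · rw [notMem_support_iff.1 hm, abs_zero]
      exact Int.natCast_nonneg H
  · intro h m _
    have h1 := h m
    rw [Int.abs_eq_natAbs] at h1
    exact_mod_cast h1

lemma box_eq (d H : ℕ) : box d H = Pool.Agent.LW.MBox d H := by
  ext f
  unfold box Pool.Agent.LW.MBox
  simp only [Set.mem_ofPred_eq]
  rw [height_le_iff]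

lemma box_finite (d H : ℕ) : (box d H).Finite := by
  rw [box_eq]
  exact Pool.Agent.LW.mbox_finite d H

lemma bounded_mono (k C C' : ℕ) (h : C ≤ C') (f : MvPolynomial (Fin 2) ℤ) (hf : Bounded k C f) :
    Bounded k C' f := by
  intro x y hxy
  obtain ⟨h1, h2⟩ := hf x y hxy
  have h3 : (C : ℤ) * (height f : ℤ) ^ k ≤ C' * (height f : ℤ) ^ k :=
    mul_le_mul_of_nonneg_right (by exact_mod_cast h) (by positivity)
  exact ⟨h1.trans h3, h2.trans h3⟩

/-- the step from a bound in terms of `H` to a bound in terms of the height of `f` -/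
lemma dyadic (d k C : ℕ) (φ : ℕ → ℕ) (hφ1 : 1 ≤ φ 1) (hφ : ∀ H, 2 ≤ H → 2 * φ (H / 2) ≤ φ H)
    (h : ∀ H, 1 ≤ H → {f ∈ Pool.Agent.LW.MBox d H | ∃ x y : ℤ, eval ![x, y] f = 0 ∧
      (C : ℤ) * (H : ℤ) ^ k < max |x| |y|}.ncard ≤ C * φ H) :
    ∀ H, 1 ≤ H → {f ∈ box d H | ¬ Bounded k (2 ^ k * (2 * C) + 1) f}.ncard ≤
      (2 ^ k * (2 * C) + 1) * φ H := by
  classical
  obtain ⟨C', hC'⟩ : ∃ C' : ℕ, C' = 2 ^ k * (2 * C) + 1 := ⟨_, rfl⟩
  rw [← hC']
  have hC2 : 2 * C + 1 ≤ C' := by
    rw [hC']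
    have : 1 * (2 * C) ≤ 2 ^ k * (2 * C) := Nat.mul_le_mul_right _ Nat.one_le_two_pow
    omega
  have hCk : C * 2 ^ k ≤ C' := by
    rw [hC']
    nlinarith [Nat.zero_le (2 ^ k * C)]
  have key : ∀ H, 1 ≤ H → {f ∈ box d H | ¬ Bounded k C' f}.ncard ≤
      {f ∈ box d (H / 2) | ¬ Bounded k C' f}.ncard + C * φ H := by
    intro H hH
    refine le_trans ?_ (Nat.add_le_add_left (h H hH) _)
    refine le_trans (Set.ncard_le_ncard ?_ (Set.Finite.union ((box_finite d (H / 2)).subset
      (fun f hf => hf.1)) ((Pool.Agent.LW.mbox_finite d H).subset (fun f hf => hf.1))))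
      (Set.ncard_union_le _ _)
    rintro f ⟨hf, hb⟩
    rcases le_or_gt (height f) (H / 2) with h1 | h1
    · exact Or.inl ⟨⟨hf.1, h1⟩, hb⟩
    · right
      refine ⟨by rw [← box_eq]; exact hf, ?_⟩
      unfold Bounded at hb
      push Not at hb
      obtain ⟨x, y, hxy, hb⟩ := hb
      refine ⟨x, y, hxy, ?_⟩
      have h2 : H ≤ 2 * height f := by omega
      have h3 : (C : ℤ) * (H : ℤ) ^ k ≤ C' * (height f : ℤ) ^ k := by
        have h4 : C * H ^ k ≤ C' * height f ^ k := by
          calc C * H ^ k ≤ C * (2 * height f) ^ k := by gcongr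
            _ = C * 2 ^ k * height f ^ k := by rw [mul_pow]; ring
            _ ≤ C' * height f ^ k := Nat.mul_le_mul_right _ hCk
        exact_mod_cast h4
      rcases le_or_gt |x| (C' * (height f : ℤ) ^ k) with h5 | h5
      · exact lt_of_le_of_lt h3 ((hb h5).trans_le (le_max_right _ _))
      · exact lt_of_le_of_lt h3 (h5.trans_le (le_max_left _ _))
  intro H
  induction H using Nat.strong_induction_on with
  | _ H ih =>
    intro hH
    have h1 := key H hH
    rcases Nat.lt_or_ge H 2 with h2 | h2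
    · have hH1 : H = 1 := by omega
      subst hH1
      have h3 : {f ∈ box d (1 / 2) | ¬ Bounded k C' f}.ncard ≤ 1 := by
        refine (Set.ncard_le_ncard (t := {0}) ?_ (Set.finite_singleton _)).trans
          (Set.ncard_singleton _).le
        rintro f ⟨hf, -⟩
        have h4 : height f ≤ 0 := hf.2
        rw [height_le_iff] at h4
        rw [Set.mem_singleton_iff]
        ext m
        have := h4 m
        rw [coeff_zero]
        simpa using this
      nlinarith
    · have h3 := ih (H / 2) (by omega) (by omega)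
      have h4 := hφ H h2
      have h5 : 2 * ((C' : ℕ) * φ (H / 2)) ≤ C' * φ H := by nlinarith
      nlinarith [Nat.zero_le (φ H)]

lemma pow_half (a H : ℕ) (ha : 1 ≤ a) : 2 * (H / 2) ^ a ≤ H ^ a := by
  calc 2 * (H / 2) ^ a = 2 ^ 1 * (H / 2) ^ a := by rw [pow_one]
    _ ≤ 2 ^ a * (H / 2) ^ a := Nat.mul_le_mul_right _ (Nat.pow_le_pow_right (by norm_num) ha)
    _ = (2 * (H / 2)) ^ a := by rw [mul_pow]
    _ ≤ H ^ a := Nat.pow_le_pow_left (by omega) _

/-- the number of polynomials vanishing at the origin -/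
lemma solvable_card (d H : ℕ) : H ^ ((d + 1) * (d + 2) / 2 - 1) ≤
    {f ∈ box d H | ∃ x y : ℤ, eval ![x, y] f = 0}.ncard := by
  classical
  have h1 : (Pool.Agent.LW.BI ((Pool.Agent.LW.TT (d + 1)).erase (0, 0)) H).ncard =
      (2 * H + 1) ^ ((d + 1) * (d + 2) / 2 - 1) := by
    rw [Pool.Agent.LW.BI_ncard, Finset.card_erase_of_mem
      ((Pool.Agent.LW.mem_TT (d + 1) 0 0).2 (by omega)), Pool.Agent.LW.card_TT]
    congr 3
    ring
  have h2 : H ^ ((d + 1) * (d + 2) / 2 - 1) ≤ (2 * H + 1) ^ ((d + 1) * (d + 2) / 2 - 1) :=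
    Nat.pow_le_pow_left (by omega) _
  refine h2.trans ?_
  rw [← h1, box_eq, ← ((Pool.Agent.LW.aac_injOn d H).mono
    (fun f hf => hf.1 : {f ∈ Pool.Agent.LW.MBox d H | ∃ x y : ℤ, eval ![x, y] f = 0} ⊆
      Pool.Agent.LW.MBox d H)).ncard_image]
  refine Set.ncard_le_ncard ?_ ((((Pool.Agent.LW.mbox_finite d H).subset
    (fun f hf => hf.1)).image _))
  intro c hc
  have hcB : c ∈ Pool.Agent.LW.Box d H := by
    rw [Pool.Agent.LW.box_eq]
    refine ⟨fun i j hij => hc.1 i j (fun hm => hij (Finset.mem_of_mem_erase hm)), fun i j hij => ?_⟩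
    by_cases h0 : (i, j) = (0, 0)
    · have h4 := hc.1 i j (by rw [h0]; exact Finset.notMem_erase _ _)
      rw [h4, abs_zero]
      exact Int.natCast_nonneg H
    · exact hc.2 i j (Finset.mem_erase.2 ⟨h0, hij⟩)
  have hcI : c ∈ Pool.Agent.LW.arr d '' Pool.Agent.LW.MBox d H := by
    rw [Pool.Agent.LW.aac_image]
    exact hcB
  obtain ⟨f, hf, rfl⟩ := hcI
  refine ⟨f, ⟨hf, 0, 0, ?_⟩, rfl⟩
  rw [Pool.Agent.LW.arr_eval d f hf.1]
  unfold Pool.Agent.LW.ev
  refine Finset.sum_eq_zero fun k hk => Finset.sum_eq_zero fun j hj => ?_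
  rw [Finset.mem_range] at hj
  by_cases h5 : k = 0
  · subst h5
    have hj0 : j = 0 := by omega
    subst hj0
    have h4 := hc.1 0 0 (Finset.notMem_erase _ _)
    rw [Nat.sub_zero, h4]
    ring
  · by_cases h6 : j = 0
    · subst h6
      rw [Nat.sub_zero, zero_pow h5]
      ring
    · rw [zero_pow h6]
      ring

/-- For `d ≥ 4` there are `k` and `C` such that, for every `H`, all but at most
`C * (H ^ (4d-2) + H ^ (N-2))` of the `(2H+1) ^ N` polynomials of degree at most `d` and height at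
most `H`, `N = (d+1)(d+2)/2`, have all their integer zeros bounded by `C * (height f) ^ k`; if
`d ≥ 5`, the number of exceptions is at most `C / H` times the number of polynomials that have an
integer zero. -/
theorem result (d : ℕ) (hd : 4 ≤ d) : ∃ k C : ℕ, ∀ H : ℕ, 1 ≤ H →
    (box d H).ncard = (2 * H + 1) ^ ((d + 1) * (d + 2) / 2) ∧
    {f ∈ box d H | ¬ Bounded k C f}.ncard ≤
      C * (H ^ (4 * d - 2) + H ^ ((d + 1) * (d + 2) / 2 - 2)) ∧
    (5 ≤ d → H * {f ∈ box d H | ¬ Bounded k C f}.ncard ≤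
      C * {f ∈ box d H | ∃ x y : ℤ, eval ![x, y] f = 0}.ncard) := by
  classical
  obtain ⟨k, C, h⟩ := Pool.Agent.LW.count_large d hd
  have hN : 15 ≤ (d + 1) * (d + 2) / 2 := by
    rw [Nat.le_div_iff_mul_le (by norm_num)]
    nlinarith
  have hmain := dyadic d k C (fun H => H ^ (4 * d - 2) + H ^ ((d + 1) * (d + 2) / 2 - 2))
    (by simp) (fun H hH => by
      have h1 := pow_half (4 * d - 2) H (by omega)
      have h2 := pow_half ((d + 1) * (d + 2) / 2 - 2) H (by omega)
      omega) h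
  set C' := 2 ^ k * (2 * C) + 1 with hC'
  refine ⟨k, 2 * C', fun H hH => ?_⟩
  have hsub : {f ∈ box d H | ¬ Bounded k (2 * C') f}.ncard ≤
      {f ∈ box d H | ¬ Bounded k C' f}.ncard := by
    refine Set.ncard_le_ncard ?_ ((box_finite d H).subset (fun f hf => hf.1))
    rintro f ⟨hf, hb⟩
    exact ⟨hf, fun hb' => hb (bounded_mono k C' (2 * C') (by omega) f hb')⟩
  have hm := hsub.trans (hmain H hH)
  refine ⟨?_, ?_, ?_⟩
  · rw [box_eq]
    exact Pool.Agent.LW.mbox_ncard d H
  · refine hm.trans (Nat.mul_le_mul_right _ (by omega))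
  · intro hd5
    have h1 : 4 * d - 2 ≤ (d + 1) * (d + 2) / 2 - 2 := by
      have h2 : 4 * d ≤ (d + 1) * (d + 2) / 2 := by
        rw [Nat.le_div_iff_mul_le (by norm_num)]
        nlinarith
      omega
    have h3 : H ^ (4 * d - 2) ≤ H ^ ((d + 1) * (d + 2) / 2 - 2) := Nat.pow_le_pow_right hH h1
    have h4 : H * H ^ ((d + 1) * (d + 2) / 2 - 2) = H ^ ((d + 1) * (d + 2) / 2 - 1) := by
      rw [← pow_succ']
      congr 1
      omega
    calc H * {f ∈ box d H | ¬ Bounded k (2 * C') f}.ncard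
        ≤ H * (C' * (H ^ (4 * d - 2) + H ^ ((d + 1) * (d + 2) / 2 - 2))) :=
          Nat.mul_le_mul_left _ hm
      _ ≤ H * (C' * (H ^ ((d + 1) * (d + 2) / 2 - 2) + H ^ ((d + 1) * (d + 2) / 2 - 2))) := by
          gcongr
      _ = 2 * C' * (H * H ^ ((d + 1) * (d + 2) / 2 - 2)) := by ring
      _ = 2 * C' * H ^ ((d + 1) * (d + 2) / 2 - 1) := by rw [h4]
      _ ≤ 2 * C' * {f ∈ box d H | ∃ x y : ℤ, eval ![x, y] f = 0}.ncard :=
          Nat.mul_le_mul_left _ (solvable_card d H)

end Pool.Agent.Results.MP_2d259b_nt.AlmostAllCurves
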