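import Pool.Agent.H20.W4
import Pool.Agent.H20.Comp

set_option autoImplicit false

namespace Pool.Agent.Results.MP_2d259b_nt.LogWindows

open MvPolynomial Module

/-- The polynomial `f(x, y) = ∑ c x^i y^j` given by a finite list of triples `(i, j, c)`. -/
noncomputable def poly (L : List (ℕ × ℕ × ℤ)) : MvPolynomial (Fin 2) ℤ :=
  (L.map (fun t => C t.2.2 * X 0 ^ t.1 * X 1 ^ t.2.1)).sum

/-- A branch at infinity of the curve `g = 0` over the field `E`: a point `(x(t), y(t))` of the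
curve with coordinates in the field of formal Laurent series over `E`, whose pole order
`max(-ord x, -ord y)` is the positive integer `e`. -/
def IsBranch {E : Type} [Field E] (g : MvPolynomial (Fin 2) ℤ) (x y : LaurentSeries E) (e : ℕ) :
    Prop :=
  eval₂ (Int.castRingHom (LaurentSeries E)) ![x, y] g = 0 ∧ 1 ≤ e ∧
    (∀ n : ℤ, n < -(e : ℤ) → x.coeff n = 0 ∧ y.coeff n = 0) ∧
    (x.coeff (-(e : ℤ)) ≠ 0 ∨ y.coeff (-(e : ℤ)) ≠ 0)

/-- The curve `g = 0` has a branch at infinity of pole order `e` over a number field `E` with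
`[E : ℚ] * e < deg g`. (For `g` irreducible over `ℚ`: there are at least two places at infinity
over `ℚ`.) -/
def HasSmallBranch (g : MvPolynomial (Fin 2) ℤ) : Prop :=
  ∃ (E : Type) (_ : Field E) (_ : NumberField E) (x y : LaurentSeries E) (e : ℕ),
    IsBranch g x y e ∧ finrank ℚ E * e < g.totalDegree

/-- Every number field over which the curve `g = 0` has a branch at infinity has degree at least
three. -/
def BranchFieldsLarge (g : MvPolynomial (Fin 2) ℤ) : Prop :=
  ∀ (E : Type) [Field E] [NumberField E] (x y : LaurentSeries E) (e : ℕ), IsBranch g x y e →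
    3 ≤ finrank ℚ E

lemma eval_poly (L : List (ℕ × ℕ × ℤ)) (x y : ℤ) :
    eval ![x, y] (poly L) = (L.map (fun t => t.2.2 * x ^ t.1 * y ^ t.2.1)).sum := by
  unfold poly
  rw [map_list_sum, List.map_map]
  congr 1
  refine List.map_congr_left (fun t _ => ?_)
  simp

lemma HF_eq (F : MvPolynomial (Fin 2) ℤ) (s : Finset (Fin 2 →₀ ℕ)) (hs : F.support ⊆ s) :
    Pool.Agent.H20.HF F = ∑ m ∈ s, |((F.coeff m : ℤ) : ℝ)| := by
  unfold Pool.Agent.H20.HF
  refine Finset.sum_subset hs (fun m _ hm => ?_)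
  rw [notMem_support_iff.mp hm]
  simp

lemma HF_add_le (F G : MvPolynomial (Fin 2) ℤ) :
    Pool.Agent.H20.HF (F + G) ≤ Pool.Agent.H20.HF F + Pool.Agent.H20.HF G := by
  classical
  rw [HF_eq (F + G) (F.support ∪ G.support) support_add,
    HF_eq F (F.support ∪ G.support) Finset.subset_union_left,
    HF_eq G (F.support ∪ G.support) Finset.subset_union_right, ← Finset.sum_add_distrib]
  refine Finset.sum_le_sum (fun m _ => ?_)
  rw [coeff_add]
  push_cast
  exact abs_add_le _ _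

lemma HF_monomial_le (i j : ℕ) (c : ℤ) :
    Pool.Agent.H20.HF (C c * X 0 ^ i * X 1 ^ j) ≤ c.natAbs := by
  classical
  have h : (C c * X 0 ^ i * X 1 ^ j : MvPolynomial (Fin 2) ℤ)
      = monomial (Finsupp.single 0 i + Finsupp.single 1 j) c := by
    rw [X_pow_eq_monomial, X_pow_eq_monomial, C_mul_monomial, monomial_mul, mul_one, mul_one]
  rw [h, HF_eq _ {Finsupp.single 0 i + Finsupp.single 1 j} support_monomial_subset,
    Finset.sum_singleton, coeff_monomial, if_pos rfl]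
  have h1 : ((c.natAbs : ℕ) : ℝ) = |(c : ℝ)| := by
    rw [Nat.cast_natAbs]
    push_cast
    rfl
  rw [h1]

lemma HF_poly_le (L : List (ℕ × ℕ × ℤ)) :
    Pool.Agent.H20.HF (poly L) ≤ ((L.map (fun t => t.2.2.natAbs)).sum : ℕ) := by
  induction L with
  | nil =>
    simp [poly, Pool.Agent.H20.HF]
  | cons t L ih =>
    have h : poly (t :: L) = C t.2.2 * X 0 ^ t.1 * X 1 ^ t.2.1 + poly L := by
      simp [poly]
    rw [h, List.map_cons, List.sum_cons]
    push_cast
    have h1 := HF_monomial_le t.1 t.2.1 t.2.2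
    have h2 := HF_add_le (C t.2.2 * X 0 ^ t.1 * X 1 ^ t.2.1) (poly L)
    push_cast at ih
    linarith

/-- Constants for the irreducible curves of degree at most `D`. -/
lemma exists_constants (D : ℕ) : ∃ (κ n : ℕ) (A : ℝ), 1 ≤ n ∧ 1 ≤ A ∧
    ∀ G : MvPolynomial (Fin 2) ℤ, Irreducible (map (Int.castRingHom ℚ) G) →
      3 ≤ G.totalDegree → G.totalDegree ≤ D → (HasSmallBranch G ∨ BranchFieldsLarge G) →
      ∃ R : Finset ℝ, R.card ≤ G.totalDegree ∧ (∀ r ∈ R, 1 ≤ r) ∧
        ∀ x y : ℤ, eval ![x, y] G = 0 →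
          max |(x : ℝ)| |(y : ℝ)| ≤ A * Pool.Agent.H20.HF G ^ κ ∨
            ∃ r ∈ R, r ≤ max |(x : ℝ)| |(y : ℝ)| ∧ max |(x : ℝ)| |(y : ℝ)| ≤ r ^ n := by
  classical
  have h1 : ∀ e : ℕ, ∃ (κ n : ℕ) (A : ℝ), 1 ≤ n ∧ 1 ≤ A ∧ (3 ≤ e →
      ∀ F : MvPolynomial (Fin 2) ℤ, Irreducible (MvPolynomial.map (Int.castRingHom ℚ) F) →
      F.totalDegree = e → Pool.Agent.H20.G.CondWF e F →
      ∃ R : Fin e → ℝ, (∀ i, 1 ≤ R i) ∧ ∀ x y : ℤ, MvPolynomial.eval ![x, y] F = 0 →
        max |(x : ℝ)| |(y : ℝ)| ≤ A * Pool.Agent.H20.HF F ^ κ ∨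
          ∃ i, R i ≤ max |(x : ℝ)| |(y : ℝ)| ∧ max |(x : ℝ)| |(y : ℝ)| ≤ R i ^ n) := by
    intro e
    by_cases he : 3 ≤ e
    · obtain ⟨κ, n, A, hn, hA, h⟩ := Pool.Agent.H20.G.general_windows e he
      exact ⟨κ, n, A, hn, hA, fun _ => h⟩
    · exact ⟨0, 1, 1, le_refl _, le_refl _, fun h => absurd h he⟩
  choose κ n A hn hA h using h1
  refine ⟨∑ e ∈ Finset.range (D + 1), κ e, ∑ e ∈ Finset.range (D + 1), n e,
    ∑ e ∈ Finset.range (D + 1), A e, ?_, ?_, ?_⟩
  · exact (hn 0).trans (Finset.single_le_sum (f := n) (fun e _ => Nat.zero_le _)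
      (Finset.mem_range.2 (Nat.succ_pos D)))
  · exact (hA 0).trans (Finset.single_le_sum (f := A) (fun e _ => zero_le_one.trans (hA e))
      (Finset.mem_range.2 (Nat.succ_pos D)))
  intro G hirr h3 hGD hcond
  have hmem : G.totalDegree ∈ Finset.range (D + 1) := Finset.mem_range.2 (by omega)
  have hcond' : Pool.Agent.H20.G.CondWF G.totalDegree G := by
    rcases hcond with ⟨E, fE, nE, u, v, m, ⟨h1, h2, h3, h4⟩, h5⟩ | hP
    · left
      exact ⟨E, fE, nE, u, v, m, h1, ⟨h2, h3, h4⟩, h5⟩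
    · right
      intro E fE nE u v m h1 h2
      exact hP E u v m ⟨h1, h2.1, h2.2.1, h2.2.2⟩
  obtain ⟨R, hR1, hR⟩ := h G.totalDegree h3 G hirr rfl hcond'
  have hG0 : G ≠ 0 := by
    rintro rfl
    rw [totalDegree_zero] at h3
    omega
  have hHF : 1 ≤ Pool.Agent.H20.HF G := by
    rw [← Pool.Agent.H15D.HI_cast]
    exact_mod_cast Pool.Agent.H15D.one_le_HI hG0
  refine ⟨Finset.univ.image R, ?_, ?_, ?_⟩
  · exact Finset.card_image_le.trans (by rw [Finset.card_univ, Fintype.card_fin])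
  · intro r hr
    obtain ⟨i, -, rfl⟩ := Finset.mem_image.1 hr
    exact hR1 i
  intro x y hxy
  rcases hR x y hxy with h4 | ⟨i, h4, h5⟩
  · left
    refine h4.trans ?_
    refine mul_le_mul ?_ (pow_le_pow_right₀ hHF ?_) (by positivity) ?_
    · exact Finset.single_le_sum (f := A) (fun e _ => zero_le_one.trans (hA e)) hmem
    · exact Finset.single_le_sum (f := κ) (fun e _ => Nat.zero_le _) hmem
    · exact Finset.sum_nonneg (fun e _ => zero_le_one.trans (hA e))
  · right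
    refine ⟨R i, Finset.mem_image.2 ⟨i, Finset.mem_univ _, rfl⟩, h4, h5.trans ?_⟩
    exact pow_le_pow_right₀ (hR1 i)
      (Finset.single_le_sum (f := n) (fun e _ => Nat.zero_le _) hmem)

/-- windows for a product -/
lemma windows_multiset (n : ℕ) (P : MvPolynomial (Fin 2) ℤ → ℝ → Prop)
    (s : Multiset (MvPolynomial (Fin 2) ℤ)) :
    ∀ (_ : ∀ G ∈ s, ∃ R : Finset ℝ, R.card ≤ G.totalDegree ∧ (∀ r ∈ R, 1 ≤ r) ∧
      ∀ t : ℝ, P G t → ∃ r ∈ R, r ≤ t ∧ t ≤ r ^ n),
    ∃ R : Finset ℝ, R.card ≤ (s.map MvPolynomial.totalDegree).sum ∧ (∀ r ∈ R, 1 ≤ r) ∧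
      ∀ G ∈ s, ∀ t : ℝ, P G t → ∃ r ∈ R, r ≤ t ∧ t ≤ r ^ n := by
  classical
  induction s using Multiset.induction_on with
  | empty =>
    intro _
    exact ⟨∅, by simp, by simp, by simp⟩
  | cons G s ih =>
    intro h
    obtain ⟨R, hR1, hR2, hR3⟩ := ih (fun G' hG' => h G' (Multiset.mem_cons_of_mem hG'))
    obtain ⟨R', hR1', hR2', hR3'⟩ := h G (Multiset.mem_cons_self _ _)
    refine ⟨R' ∪ R, ?_, ?_, ?_⟩
    · rw [Multiset.map_cons, Multiset.sum_cons]
      exact (Finset.card_union_le _ _).trans (Nat.add_le_add hR1' hR1)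
    · intro r hr
      rcases Finset.mem_union.1 hr with h1 | h1
      · exact hR2' r h1
      · exact hR2 r h1
    · intro G' hG' t ht
      rcases Multiset.mem_cons.1 hG' with rfl | h1
      · obtain ⟨r, hr, h2⟩ := hR3' t ht
        exact ⟨r, Finset.mem_union_left _ hr, h2⟩
      · obtain ⟨r, hr, h2⟩ := hR3 G' h1 t ht
        exact ⟨r, Finset.mem_union_right _ hr, h2⟩

lemma totalDegree_multiset_prod (s : Multiset (MvPolynomial (Fin 2) ℤ)) (h : ∀ G ∈ s, G ≠ 0) :
    s.prod.totalDegree = (s.map MvPolynomial.totalDegree).sum := by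
  induction s using Multiset.induction_on with
  | empty => simp
  | cons G s ih =>
    have h1 : ∀ G ∈ s, G ≠ 0 := fun G' hG' => h G' (Multiset.mem_cons_of_mem hG')
    rw [Multiset.prod_cons, Multiset.map_cons, Multiset.sum_cons, ← ih h1]
    refine totalDegree_mul_of_isDomain (h G (Multiset.mem_cons_self _ _)) ?_
    rw [Ne, Multiset.prod_eq_zero_iff]
    exact fun h2 => h1 0 h2 rfl

/-- For every `D` there are `k`, `n` and `C` such that the computable function
`B = C * (∑ |coefficients|)^k` bounds the integral points of every plane curve `f = 0` over `ℤ` of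
degree at most `D` with finitely many integral points, apart from points whose size lies in at most
`D` windows `[r, r ^ n]`, under the following condition on each `ℚ`-irreducible factor `g` of `f`
of degree at least three: either the curve `g = 0` has two or more places at infinity, or every
number field over which `g = 0` has a branch at infinity has degree at least three. -/
theorem result (D : ℕ) :
    ∃ (k n C : ℕ) (B : List (ℕ × ℕ × ℤ) → ℕ), Computable B ∧
      (∀ L, B L = C * (L.map (fun t => t.2.2.natAbs)).sum ^ k) ∧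
      ∀ L : List (ℕ × ℕ × ℤ), poly L ≠ 0 → (poly L).totalDegree ≤ D →
        (∀ g : MvPolynomial (Fin 2) ℤ, g ∣ poly L →
          Irreducible (map (Int.castRingHom ℚ) g) → 3 ≤ g.totalDegree →
          HasSmallBranch g ∨ BranchFieldsLarge g) →
        {p : ℤ × ℤ | (L.map (fun t => t.2.2 * p.1 ^ t.1 * p.2 ^ t.2.1)).sum = 0}.Finite →
        ∃ R : Finset ℝ, R.card ≤ D ∧ (∀ r ∈ R, 1 ≤ r) ∧
          ∀ x y : ℤ, (L.map (fun t => t.2.2 * x ^ t.1 * y ^ t.2.1)).sum = 0 →
            (x.natAbs ≤ B L ∧ y.natAbs ≤ B L) ∨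
              ∃ r ∈ R, r ≤ max |(x : ℝ)| |(y : ℝ)| ∧ max |(x : ℝ)| |(y : ℝ)| ≤ r ^ n := by
  classical
  obtain ⟨κ, n, A, hn, hA, hw⟩ := exists_constants D
  obtain ⟨c, hc1, hc⟩ := Pool.Agent.H15D.height_factor D
  set kk := κ + 6 with hkk
  have hA0 : 0 ≤ A := zero_le_one.trans hA
  have hc0 : 0 ≤ c := zero_le_one.trans hc1
  set AA : ℝ := (323 + A) * c ^ kk with hAA
  have hAA0 : 0 ≤ AA := by positivity
  refine ⟨kk, n, ⌈AA⌉₊, _, Pool.Agent.H20.computable_bound ⌈AA⌉₊ kk, fun L => rfl, ?_⟩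
  intro L hL0 hLD hcond hfin
  have hfin' : {p : ℤ × ℤ | eval ![p.1, p.2] (poly L) = 0}.Finite := by
    apply hfin.subset
    intro p hp
    have hp' : eval ![p.1, p.2] (poly L) = 0 := hp
    rw [eval_poly] at hp'
    exact hp'
  have hHF1 : 1 ≤ Pool.Agent.H20.HF (poly L) := by
    rw [← Pool.Agent.H15D.HI_cast]
    exact_mod_cast Pool.Agent.H15D.one_le_HI hL0
  -- factors
  set s := UniqueFactorizationMonoid.factors (poly L) with hs
  have hsirr : ∀ G ∈ s, Irreducible G := fun G hG =>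
    UniqueFactorizationMonoid.irreducible_of_factor G hG
  have hsdvd : ∀ G ∈ s, G ∣ poly L := fun G hG =>
    UniqueFactorizationMonoid.dvd_of_mem_factors hG
  have hsne : ∀ G ∈ s, G ≠ 0 := fun G hG => (hsirr G hG).ne_zero
  have hassoc : Associated s.prod (poly L) := UniqueFactorizationMonoid.factors_prod hL0
  have hdegs : (s.map MvPolynomial.totalDegree).sum ≤ D := by
    rw [← totalDegree_multiset_prod s hsne]
    obtain ⟨u, hu⟩ := hassoc
    refine le_trans ?_ hLD
    rw [← hu, totalDegree_mul_of_isDomain ?_ u.ne_zero]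
    · exact Nat.le_add_right _ _
    · rw [Ne, Multiset.prod_eq_zero_iff]
      exact fun h2 => hsne 0 h2 rfl
  have hdegG : ∀ G ∈ s, G.totalDegree ≤ D := fun G hG =>
    (Multiset.single_le_sum (fun _ _ => Nat.zero_le _) _ (Multiset.mem_map_of_mem _ hG)).trans hdegs
  -- the comparison of the bounds
  have fin : ∀ G ∈ s, ∀ (b : ℝ) (j : ℕ), 0 ≤ b → b ≤ 323 + A → j ≤ kk →
      b * Pool.Agent.H20.HF G ^ j ≤ AA * Pool.Agent.H20.HF (poly L) ^ kk := by
    intro G hG b j hb0 hb hj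
    have hHG : Pool.Agent.H20.HF G ≤ c * Pool.Agent.H20.HF (poly L) :=
      hc (poly L) G hL0 hLD (hsdvd G hG)
    have hHG0 : 0 ≤ Pool.Agent.H20.HF G := Finset.sum_nonneg fun _ _ => abs_nonneg _
    have hcH : 1 ≤ c * Pool.Agent.H20.HF (poly L) := one_le_mul_of_one_le_of_one_le hc1 hHF1
    calc b * Pool.Agent.H20.HF G ^ j ≤ b * (c * Pool.Agent.H20.HF (poly L)) ^ kk := by
          apply mul_le_mul_of_nonneg_left _ hb0
          exact (pow_le_pow_left₀ hHG0 hHG j).trans (pow_le_pow_right₀ hcH hj)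
      _ ≤ (323 + A) * (c * Pool.Agent.H20.HF (poly L)) ^ kk :=
          mul_le_mul_of_nonneg_right hb (by positivity)
      _ = AA * Pool.Agent.H20.HF (poly L) ^ kk := by rw [hAA, mul_pow]; ring
  have fin2 : ∀ x y : ℤ, max |(x : ℝ)| |(y : ℝ)| ≤ AA * Pool.Agent.H20.HF (poly L) ^ kk →
      x.natAbs ≤ ⌈AA⌉₊ * (L.map (fun t => t.2.2.natAbs)).sum ^ kk ∧
        y.natAbs ≤ ⌈AA⌉₊ * (L.map (fun t => t.2.2.natAbs)).sum ^ kk := by
    intro x y hxy
    have h1 : AA * Pool.Agent.H20.HF (poly L) ^ kk ≤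
        ((⌈AA⌉₊ * (L.map (fun t => t.2.2.natAbs)).sum ^ kk : ℕ) : ℝ) := by
      push_cast
      have h2 := HF_poly_le L
      push_cast at h2
      exact mul_le_mul (Nat.le_ceil AA) (pow_le_pow_left₀ (by linarith) h2 _)
        (pow_nonneg (by linarith) _) (Nat.cast_nonneg _)
    have h3 : ((x.natAbs : ℕ) : ℝ) = |(x : ℝ)| := by rw [Nat.cast_natAbs]; push_cast; rfl
    have h4 : ((y.natAbs : ℕ) : ℝ) = |(y : ℝ)| := by rw [Nat.cast_natAbs]; push_cast; rfl
    constructor
    · have : ((x.natAbs : ℕ) : ℝ) ≤ ((⌈AA⌉₊ * (L.map (fun t => t.2.2.natAbs)).sum ^ kk : ℕ) : ℝ) := by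
        rw [h3]
        exact (le_max_left _ _).trans (hxy.trans h1)
      exact_mod_cast this
    · have : ((y.natAbs : ℕ) : ℝ) ≤ ((⌈AA⌉₊ * (L.map (fun t => t.2.2.natAbs)).sum ^ kk : ℕ) : ℝ) := by
        rw [h4]
        exact (le_max_right _ _).trans (hxy.trans h1)
      exact_mod_cast this
  -- the windows
  obtain ⟨R, hRc, hR1, hR⟩ := windows_multiset n
    (fun G t => AA * Pool.Agent.H20.HF (poly L) ^ kk < t ∧
      ∃ x y : ℤ, eval ![x, y] G = 0 ∧ t = max |(x : ℝ)| |(y : ℝ)|) s (by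
    intro G hG
    by_cases hbad : ∃ x y : ℤ, eval ![x, y] G = 0 ∧
        AA * Pool.Agent.H20.HF (poly L) ^ kk < max |(x : ℝ)| |(y : ℝ)|
    swap
    · push Not at hbad
      refine ⟨∅, by simp, by simp, ?_⟩
      rintro t ⟨h1, x, y, h2, rfl⟩
      exact absurd (hbad x y h2) (not_le.2 h1)
    obtain ⟨x₀, y₀, hz₀, hlt₀⟩ := hbad
    have hirrQ := Pool.Agent.H15D.irreducible_map (hsirr G hG) hz₀
    obtain ⟨Q, hQ⟩ := hsdvd G hG
    have hfinG : {p : ℤ × ℤ | eval ![p.1, p.2] G = 0}.Finite := by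
      apply hfin'.subset
      intro p hp
      change eval ![p.1, p.2] (poly L) = 0
      have hp' : eval ![p.1, p.2] G = 0 := hp
      rw [hQ, map_mul, hp', zero_mul]
    have he1 : 1 ≤ G.totalDegree := by
      by_contra h0
      have h1 : G.totalDegree = 0 := by omega
      rw [totalDegree_eq_zero_iff_eq_C] at h1
      rw [h1, eval_C] at hz₀
      rw [hz₀, C_0] at h1
      exact hsne G hG h1
    have h3 : 3 ≤ G.totalDegree := by
      by_contra hlt
      rcases Nat.lt_or_ge G.totalDegree 2 with h2 | h2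
      · exact Pool.Agent.H15D.line_case (G := G) (by omega) hfinG hz₀
      · have h4 := Pool.Agent.H15D.conic_caseG (by omega) (hsne G hG) hirrQ hfinG hz₀
        have h5 := fin G hG 323 6 (by norm_num) (by linarith) (by omega)
        exact absurd ((max_le h4.1 h4.2).trans h5) (not_le.2 hlt₀)
    obtain ⟨R, h4, h5, h6⟩ := hw G hirrQ h3 (hdegG G hG) (hcond G (hsdvd G hG) hirrQ h3)
    refine ⟨R, h4, h5, ?_⟩
    rintro t ⟨h7, x, y, h8, rfl⟩
    rcases h6 x y h8 with h9 | h9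
    · exact absurd (h9.trans (fin G hG A κ hA0 (by linarith) (by omega))) (not_le.2 h7)
    · exact h9)
  refine ⟨R, hRc.trans hdegs, hR1, ?_⟩
  intro x y hxy
  have hxy' : eval ![x, y] (poly L) = 0 := by rw [eval_poly]; exact hxy
  rcases le_or_gt (max |(x : ℝ)| |(y : ℝ)|) (AA * Pool.Agent.H20.HF (poly L) ^ kk) with h1 | h1
  · exact Or.inl (fin2 x y h1)
  · right
    obtain ⟨G₀, hG₀, hirr₀, hz₀⟩ := Pool.Agent.H15D.exists_factor hL0 hxy'
    obtain ⟨G, hG, hGG⟩ := UniqueFactorizationMonoid.exists_mem_factors_of_dvd hL0 hirr₀ hG₀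
    have hz : eval ![x, y] G = 0 := by
      obtain ⟨q, hq⟩ := hGG.dvd
      rw [hq, map_mul, hz₀, zero_mul]
    exact hR G hG _ ⟨h1, x, y, hz, rfl⟩

end Pool.Agent.Results.MP_2d259b_nt.LogWindows
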