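import Pool.Agent.LW.FAM
import Pool.Agent.LW.LVL
import Pool.Agent.LW.CNTALL

/-! In every pencil `f(x, y) = c` (and in larger families `f + P`, `deg P ≤ e`) all but a bounded
number of members satisfy an effective bound for their integer points. -/

set_option autoImplicit false

namespace Pool.Agent.Results.MP_2d259b_nt.Pencils

open MvPolynomial

/-- the largest absolute value of a coefficient of `f` -/
def height (f : MvPolynomial (Fin 2) ℤ) : ℕ := f.support.sup fun m => (f.coeff m).natAbs

/-- all integer zeros of `f` are bounded by `C * (height f) ^ k` -/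
def Bounded (k C : ℕ) (f : MvPolynomial (Fin 2) ℤ) : Prop :=
  ∀ x y : ℤ, eval ![x, y] f = 0 → |x| ≤ C * (height f : ℤ) ^ k ∧ |y| ≤ C * (height f : ℤ) ^ k

/-- `f` is the sum of a product of `d` complex linear polynomials and a complex polynomial of
degree at most `n` -/
def NearProduct (d n : ℕ) (f : MvPolynomial (Fin 2) ℤ) : Prop :=
  ∃ ℓ : Fin d → MvPolynomial (Fin 2) ℂ, (∀ i, (ℓ i).totalDegree ≤ 1) ∧
    (map (Int.castRingHom ℂ) f - ∏ i, ℓ i).totalDegree ≤ n

lemma coeff_le_height (f : MvPolynomial (Fin 2) ℤ) (m : Fin 2 →₀ ℕ) :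
    |f.coeff m| ≤ (height f : ℤ) := by
  by_cases hm : m ∈ f.support
  · have h1 : (f.coeff m).natAbs ≤ height f :=
      Finset.le_sup (f := fun m => (f.coeff m).natAbs) hm
    rw [Int.abs_eq_natAbs]
    exact_mod_cast h1
  · rw [notMem_support_iff.1 hm, abs_zero]
    exact Int.natCast_nonneg _

/-- For every `d ≥ 4` there are `k` and `C` such that for every `f` of degree `d` whose leading form
is irreducible over `ℚ` and every `e ≤ d - 4` the following holds, with `n = e` if `2e + 4 ≤ d` and
`n = e + 1` otherwise: if `f` is not the sum of a product of `d` linear polynomials over `ℂ` and a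
polynomial of degree at most `n`, then for all but at most `C` of the infinitely many integer
polynomials `P` of degree at most `e`, all integer zeros of `f + P` are bounded by
`C * height (f + P) ^ k`. -/
theorem result (d : ℕ) (hd : 4 ≤ d) : ∃ k C : ℕ, ∀ f : MvPolynomial (Fin 2) ℤ,
    f.totalDegree = d → Irreducible (map (Int.castRingHom ℚ) (homogeneousComponent d f)) →
    ∀ e : ℕ, e + 4 ≤ d → ¬ NearProduct d (if 2 * e + 4 ≤ d then e else e + 1) f →
      {P : MvPolynomial (Fin 2) ℤ | P.totalDegree ≤ e ∧ ¬ Bounded k C (f + P)}.Finite ∧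
      {P : MvPolynomial (Fin 2) ℤ | P.totalDegree ≤ e ∧ ¬ Bounded k C (f + P)}.ncard ≤ C := by
  classical
  obtain ⟨K, C₀, hfam⟩ := Pool.Agent.LW.family_count d hd
  obtain ⟨k, hk⟩ := Pool.Agent.LW.large_fst d K (by omega)
  refine ⟨k, C₀ + 2 ^ k, ?_⟩
  intro f hfd hirr e he hnp
  have hL : Pool.Agent.LW.Lead d (Pool.Agent.LW.arr d f) :=
    Pool.Agent.LW.arr_lead d (by omega) f hirr
  obtain ⟨e', he'def⟩ : ∃ e', e' = if 2 * e + 4 ≤ d then e else e + 1 := ⟨_, rfl⟩
  rw [← he'def] at hnp
  have he' : e' = e + 1 ∨ (e' = e ∧ 2 * e + 4 ≤ d) := by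
    split_ifs at he'def with h
    · exact Or.inr ⟨he'def, h⟩
    · exact Or.inl he'def
  have hlev : ∀ τ : ℝ, Polynomial.aeval τ (Pool.Agent.LW.gk (Pool.Agent.LW.arr d f) d) = 0 →
      ∃ s, s + e' + 2 ≤ d ∧ Pool.Agent.LW.Lev d (Pool.Agent.LW.arr d f) τ s := by
    intro τ hτ
    refine Pool.Agent.LW.level_of_not_product d e' (by omega) f hfd.le hL ?_ τ hτ
    intro ℓ hℓ hdeg
    exact hnp ⟨ℓ, hℓ, hdeg⟩
  obtain ⟨hfin, hcard⟩ := hfam e e' he he' (Pool.Agent.LW.arr d f) hL hlev
  set E := {P : MvPolynomial (Fin 2) ℤ | P.totalDegree ≤ e ∧ ¬ Bounded k (C₀ + 2 ^ k) (f + P)}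
    with hE
  have hsumdeg : ∀ P : MvPolynomial (Fin 2) ℤ, P.totalDegree ≤ e → (f + P).totalDegree ≤ d := by
    intro P hP
    exact (totalDegree_add _ _).trans (max_le hfd.le (by omega))
  have hagree : ∀ P : MvPolynomial (Fin 2) ℤ, P.totalDegree ≤ e → ∀ i j, e < i + j → i + j ≤ d →
      Pool.Agent.LW.arr d (f + P) i j = Pool.Agent.LW.arr d f i j := by
    intro P hP i j h1 h2
    unfold Pool.Agent.LW.arr
    rw [if_pos h2, if_pos h2, coeff_add]
    have h3 : P.coeff (Finsupp.single 0 i + Finsupp.single 1 j) = 0 := by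
      apply coeff_eq_zero_of_totalDegree_lt
      have h4 : ∑ l ∈ (Finsupp.single (0 : Fin 2) i + Finsupp.single 1 j).support,
          (Finsupp.single (0 : Fin 2) i + Finsupp.single 1 j : Fin 2 →₀ ℕ) l = i + j := by
        have h5 : (Finsupp.single (0 : Fin 2) i + Finsupp.single 1 j).degree = i + j := by
          rw [Finsupp.degree_eq_sum, Fin.sum_univ_two]
          simp
        exact h5
      omega
    rw [h3, add_zero]
  have hinj : Set.InjOn (fun P => Pool.Agent.LW.arr d (f + P)) E := by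
    intro P hP Q hQ hPQ
    have h1 := Pool.Agent.LW.arr_inj d (f + P) (f + Q) (hsumdeg P hP.1) (hsumdeg Q hQ.1) hPQ
    exact add_left_cancel h1
  have hmaps : ∀ P ∈ E, Pool.Agent.LW.arr d (f + P) ∈
      Pool.Agent.LW.FamExc d K e (Pool.Agent.LW.arr d f) := by
    rintro P ⟨hP, hb⟩
    refine ⟨?_, hagree P hP, ?_⟩
    · intro i j hij
      unfold Pool.Agent.LW.arr
      rw [if_neg (by omega)]
    · unfold Bounded at hb
      push Not at hb
      obtain ⟨x, y, hxy, hb⟩ := hb
      obtain ⟨h, hh⟩ : ∃ h, h = height (f + P) := ⟨_, rfl⟩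
      rw [← hh] at hb
      have hgk : Pool.Agent.LW.gk (Pool.Agent.LW.arr d (f + P)) d =
          Pool.Agent.LW.gk (Pool.Agent.LW.arr d f) d := by
        unfold Pool.Agent.LW.gk
        refine Finset.sum_congr rfl fun j hj => ?_
        rw [Finset.mem_range] at hj
        rw [hagree P hP (d - j) j (by omega) (by omega)]
      have hdeg : (Pool.Agent.LW.gk (Pool.Agent.LW.arr d (f + P)) d).natDegree = d := by
        rw [hgk]
        exact hL.1
      have hHt : Pool.Agent.LW.Ht d (Pool.Agent.LW.arr d (f + P)) h := by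
        intro i j hij
        unfold Pool.Agent.LW.arr
        rw [if_pos hij, hh]
        exact coeff_le_height _ _
      have hh1 : 1 ≤ h := by
        by_contra h0
        have h0' : h = 0 := by omega
        have h2 : Pool.Agent.LW.gk (Pool.Agent.LW.arr d (f + P)) d = 0 := by
          unfold Pool.Agent.LW.gk
          refine Finset.sum_eq_zero fun j hj => ?_
          rw [Finset.mem_range] at hj
          have h3 := hHt (d - j) j (by omega)
          rw [h0', Nat.cast_zero] at h3
          rw [abs_nonpos_iff.1 h3, Polynomial.monomial_zero_right]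
        rw [h2, Polynomial.natDegree_zero] at hdeg
        omega
      have hmax : ((2 * h : ℕ) : ℤ) ^ k < max |x| |y| := by
        have h3 : ((2 * h : ℕ) : ℤ) ^ k ≤ ((C₀ + 2 ^ k : ℕ) : ℤ) * (h : ℤ) ^ k := by
          have h4 : (2 * h) ^ k ≤ (C₀ + 2 ^ k) * h ^ k := by
            rw [mul_pow]
            exact Nat.mul_le_mul_right _ (by omega)
          exact_mod_cast h4
        rcases le_or_gt |x| (((C₀ + 2 ^ k : ℕ) : ℤ) * (h : ℤ) ^ k) with h5 | h5
        · exact lt_of_le_of_lt h3 ((hb h5).trans_le (le_max_right _ _))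
        · exact lt_of_le_of_lt h3 (h5.trans_le (le_max_left _ _))
      have hev : Pool.Agent.LW.ev d (Pool.Agent.LW.arr d (f + P)) x y = 0 := by
        rw [← Pool.Agent.LW.arr_eval d (f + P) (hsumdeg P hP)]
        exact hxy
      have hHt2 : Pool.Agent.LW.Ht d (Pool.Agent.LW.arr d (f + P)) (2 * h) := by
        intro i j hij
        refine (hHt i j hij).trans ?_
        push_cast
        have : (0 : ℤ) ≤ (h : ℤ) := Int.natCast_nonneg h
        linarith
      refine ⟨2 * h, by omega, hHt2, x, y, hev, ?_⟩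
      exact hk (2 * h) (by omega) (Pool.Agent.LW.arr d (f + P)) hHt2 hdeg x y hev hmax
  have hEfin : E.Finite := Set.Finite.of_finite_image (hfin.subset (by
    rintro _ ⟨P, hP, rfl⟩
    exact hmaps P hP)) hinj
  refine ⟨hEfin, ?_⟩
  calc E.ncard ≤ (Pool.Agent.LW.FamExc d K e (Pool.Agent.LW.arr d f)).ncard :=
        Set.ncard_le_ncard_of_injOn (fun P => Pool.Agent.LW.arr d (f + P)) hmaps hinj hfin
    _ ≤ C₀ := hcard
    _ ≤ C₀ + 2 ^ k := Nat.le_add_right _ _

end Pool.Agent.Results.MP_2d259b_nt.Pencils
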