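import Pool.Agent.H20.Q1
import Pool.Agent.H15D.AssembleG
import Pool.Agent.H20.Comp

set_option autoImplicit false

namespace Pool.Agent.Results.MP_2d259b_nt.SubfieldAtInfinity

open MvPolynomial Module

/-- The polynomial `f(x, y) = ∑ c x^i y^j` given by a finite list of triples `(i, j, c)`. -/
noncomputable def poly (L : List (ℕ × ℕ × ℤ)) : MvPolynomial (Fin 2) ℤ :=
  (L.map (fun t => C t.2.2 * X 0 ^ t.1 * X 1 ^ t.2.1)).sum

/-- A branch at infinity of the curve `g = 0` over the field `E`: a point `(x(t), y(t))` of the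
curve with coordinates in the field of formal Laurent series over `E`, whose pole order
`max(-ord x, -ord y)` is the positive integer `e`. -/
def IsBranch {E : Type} [Field E] (g : MvPolynomial (Fin 2) ℤ) (x y : LaurentSeries E) (e : ℕ) :
    Prop :=
  eval₂ (Int.castRingHom (LaurentSeries E)) ![x, y] g = 0 ∧ 1 ≤ e ∧
    (∀ n : ℤ, n < -(e : ℤ) → x.coeff n = 0 ∧ y.coeff n = 0) ∧
    (x.coeff (-(e : ℤ)) ≠ 0 ∨ y.coeff (-(e : ℤ)) ≠ 0)

/-- The curve `g = 0` has a branch at infinity of pole order `e` over a number field `E` with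
`[E : ℚ] * e < deg g`. (For `g` irreducible over `ℚ`: there are at least two places at infinity
over `ℚ`. This is the case covered by Runge's method.) -/
def HasSmallBranch (g : MvPolynomial (Fin 2) ℤ) : Prop :=
  ∃ (E : Type) (_ : Field E) (_ : NumberField E) (x y : LaurentSeries E) (e : ℕ),
    IsBranch g x y e ∧ finrank ℚ E * e < g.totalDegree

/-- Every number field over which the curve `g = 0` has a branch at infinity contains a copy of a
subfield of `K` of degree at least three. -/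
def BranchFieldsMeet (K : Type) [Field K] [NumberField K] (g : MvPolynomial (Fin 2) ℤ) : Prop :=
  ∀ (E : Type) [Field E] [NumberField E] (x y : LaurentSeries E) (e : ℕ), IsBranch g x y e →
    ∃ F : IntermediateField ℚ K, 3 ≤ finrank ℚ F ∧ Nonempty (F →+* E)

lemma eval_poly (L : List (ℕ × ℕ × ℤ)) (x y : ℤ) :
    eval ![x, y] (poly L) = (L.map (fun t => t.2.2 * x ^ t.1 * y ^ t.2.1)).sum := by
  unfold poly
  rw [map_list_sum, List.map_map]
  congr 1
  refine List.map_congr_left (fun t _ => ?_)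
  simp

lemma HF_eq (F : MvPolynomial (Fin 2) ℤ) (s : Finset (Fin 2 →₀ ℕ)) (hs : F.support ⊆ s) :
    Pool.Agent.H20.HF F = ∑ m ∈ s, |((F.coeff m : ℤ) : ℝ)| := by
  unfold Pool.Agent.H20.HF
  refine Finset.sum_subset hs (fun m _ hm => ?_)
  rw [notMem_support_iff.mp hm]
  simp

lemma HF_add_le (F G : MvPolynomial (Fin 2) ℤ) :
    Pool.Agent.H20.HF (F + G) ≤ Pool.Agent.H20.HF F + Pool.Agent.H20.HF G := by
  classical
  rw [HF_eq (F + G) (F.support ∪ G.support) support_add,
    HF_eq F (F.support ∪ G.support) Finset.subset_union_left,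
    HF_eq G (F.support ∪ G.support) Finset.subset_union_right, ← Finset.sum_add_distrib]
  refine Finset.sum_le_sum (fun m _ => ?_)
  rw [coeff_add]
  push_cast
  exact abs_add_le _ _

lemma HF_monomial_le (i j : ℕ) (c : ℤ) :
    Pool.Agent.H20.HF (C c * X 0 ^ i * X 1 ^ j) ≤ c.natAbs := by
  classical
  have h : (C c * X 0 ^ i * X 1 ^ j : MvPolynomial (Fin 2) ℤ)
      = monomial (Finsupp.single 0 i + Finsupp.single 1 j) c := by
    rw [X_pow_eq_monomial, X_pow_eq_monomial, C_mul_monomial, monomial_mul, mul_one, mul_one]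
  rw [h, HF_eq _ {Finsupp.single 0 i + Finsupp.single 1 j} support_monomial_subset,
    Finset.sum_singleton, coeff_monomial, if_pos rfl]
  have h1 : ((c.natAbs : ℕ) : ℝ) = |(c : ℝ)| := by
    rw [Nat.cast_natAbs]
    push_cast
    rfl
  rw [h1]

lemma HF_poly_le (L : List (ℕ × ℕ × ℤ)) :
    Pool.Agent.H20.HF (poly L) ≤ ((L.map (fun t => t.2.2.natAbs)).sum : ℕ) := by
  induction L with
  | nil =>
    simp [poly, Pool.Agent.H20.HF]
  | cons t L ih =>
    have h : poly (t :: L) = C t.2.2 * X 0 ^ t.1 * X 1 ^ t.2.1 + poly L := by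
      simp [poly]
    rw [h, List.map_cons, List.sum_cons]
    push_cast
    have h1 := HF_monomial_le t.1 t.2.1 t.2.2
    have h2 := HF_add_le (C t.2.2 * X 0 ^ t.1 * X 1 ^ t.2.1) (poly L)
    push_cast at ih
    linarith

/-- For every `D` there is an exponent `k`, and for every number field `K` there is a constant `C`,
such that the computable function `B = C * (∑ |coefficients|)^k` bounds the integral points of
every plane curve `f = 0` over `ℤ` of degree at most `D` with finitely many integral points, under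
the following condition on each `ℚ`-irreducible factor `g` of `f` of degree at least three: either
the curve `g = 0` has two or more places at infinity, or every number field over which `g = 0` has
a branch at infinity contains a copy of a subfield of `K` of degree at least three. -/
theorem result (D : ℕ) :
    ∃ k : ℕ, ∀ (K : Type) [Field K] [NumberField K],
      ∃ (C : ℕ) (B : List (ℕ × ℕ × ℤ) → ℕ), Computable B ∧
        (∀ L, B L = C * (L.map (fun t => t.2.2.natAbs)).sum ^ k) ∧
        ∀ L : List (ℕ × ℕ × ℤ), poly L ≠ 0 → (poly L).totalDegree ≤ D →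
          (∀ g : MvPolynomial (Fin 2) ℤ, g ∣ poly L →
            Irreducible (map (Int.castRingHom ℚ) g) → 3 ≤ g.totalDegree →
            HasSmallBranch g ∨ BranchFieldsMeet K g) →
          {p : ℤ × ℤ | (L.map (fun t => t.2.2 * p.1 ^ t.1 * p.2 ^ t.2.1)).sum = 0}.Finite →
          ∀ x y : ℤ, (L.map (fun t => t.2.2 * x ^ t.1 * y ^ t.2.1)).sum = 0 →
            x.natAbs ≤ B L ∧ y.natAbs ≤ B L := by
  classical
  -- the exponents for irreducible curves
  have hk : ∀ e : ℕ, ∃ κ : ℕ, 3 ≤ e → ∀ (K : Type) [Field K] [NumberField K], ∃ A : ℝ, 1 ≤ A ∧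
      ∀ F : MvPolynomial (Fin 2) ℤ, Irreducible (MvPolynomial.map (Int.castRingHom ℚ) F) →
      F.totalDegree = e → Pool.Agent.H20.G.CondF K e F →
      ∀ x y : ℤ, MvPolynomial.eval ![x, y] F = 0 →
        |(x : ℝ)| ≤ A * Pool.Agent.H20.HF F ^ κ ∧ |(y : ℝ)| ≤ A * Pool.Agent.H20.HF F ^ κ := by
    intro e
    by_cases he : 3 ≤ e
    · obtain ⟨κ, hκ⟩ := Pool.Agent.H20.G.general_boundG e he
      exact ⟨κ, fun _ => hκ⟩
    · exact ⟨0, fun h => absurd h he⟩
  choose κ hκ using hk
  obtain ⟨k, hkk⟩ := Pool.Agent.H15D.assembleG D κ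
  refine ⟨k, fun K _ _ => ?_⟩
  -- the constants
  have hA : ∀ e : ℕ, ∃ A : ℝ, 1 ≤ A ∧ (3 ≤ e →
      ∀ F : MvPolynomial (Fin 2) ℤ, Irreducible (MvPolynomial.map (Int.castRingHom ℚ) F) →
      F.totalDegree = e → Pool.Agent.H20.G.CondF K e F →
      ∀ x y : ℤ, MvPolynomial.eval ![x, y] F = 0 →
        |(x : ℝ)| ≤ A * Pool.Agent.H20.HF F ^ κ e ∧
          |(y : ℝ)| ≤ A * Pool.Agent.H20.HF F ^ κ e) := by
    intro e
    by_cases he : 3 ≤ e
    · obtain ⟨A, hA1, hA2⟩ := hκ e he K
      exact ⟨A, hA1, fun _ => hA2⟩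
    · exact ⟨1, le_refl _, fun h => absurd h he⟩
  choose A hA1 hA2 using hA
  obtain ⟨AA, hAA1, hAA⟩ := hkk (fun g => HasSmallBranch g ∨ BranchFieldsMeet K g) A hA1 (by
    intro e he F hirr hFe hP x y hxy
    refine hA2 e he F hirr hFe ?_ x y hxy
    rcases hP with ⟨E, fE, nE, u, v, m, ⟨h1, h2, h3, h4⟩, h5⟩ | hP
    · left
      exact ⟨E, fE, nE, u, v, m, h1, ⟨h2, h3, h4⟩, by rw [← hFe]; exact h5⟩
    · right
      intro E fE nE u v m h1 h2
      exact hP E u v m ⟨h1, h2.1, h2.2.1, h2.2.2⟩)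
  refine ⟨⌈AA⌉₊, _, Pool.Agent.H20.computable_bound ⌈AA⌉₊ k, fun L => rfl, ?_⟩
  intro L hL0 hLD hcond hfin x y hxy
  have hfin' : {p : ℤ × ℤ | eval ![p.1, p.2] (poly L) = 0}.Finite := by
    apply hfin.subset
    intro p hp
    have hp' : eval ![p.1, p.2] (poly L) = 0 := hp
    rw [eval_poly] at hp'
    exact hp'
  have h1 := hAA (poly L) hL0 hLD hcond hfin' x y (by rw [eval_poly]; exact hxy)
  have h0 : 0 ≤ Pool.Agent.H20.HF (poly L) := Finset.sum_nonneg (fun _ _ => abs_nonneg _)
  have h2 : AA * Pool.Agent.H20.HF (poly L) ^ k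
      ≤ ((⌈AA⌉₊ * (L.map (fun t => t.2.2.natAbs)).sum ^ k : ℕ) : ℝ) := by
    push_cast
    refine mul_le_mul (Nat.le_ceil AA) ?_ (pow_nonneg h0 _) (by positivity)
    have h3 := HF_poly_le L
    push_cast at h3
    exact pow_le_pow_left₀ h0 h3 _
  have hcast : ∀ z : ℤ, ((z.natAbs : ℕ) : ℝ) = |(z : ℝ)| := by
    intro z
    rw [Nat.cast_natAbs]
    push_cast
    rfl
  constructor
  · have h4 := (h1.1).trans h2
    rw [← hcast] at h4
    exact_mod_cast h4
  · have h4 := (h1.2).trans h2
    rw [← hcast] at h4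
    exact_mod_cast h4

end Pool.Agent.Results.MP_2d259b_nt.SubfieldAtInfinity
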